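import Mathlib

/-!
# Zagier's conjecture and subfields
-/

set_option autoImplicit false

open scoped Classical

namespace Pool.Agent.V2450.Zagier

section reg

variable {V : Type} [AddCommGroup V] [Module ℚ V]

/-- The identity of Zagier's conjecture up to a rational factor: `B` is the subspace of the elements
which come from the polylogarithmic group, `r` is the regulator and `Z` is the number
`π^{-n d_{n-1}} d_F^{1/2} ζ_F(n)`. -/
def Identity (B : Submodule ℚ V) {d : ℕ} (r : V →ₗ[ℚ] (Fin d → ℝ)) (Z : ℝ) : Prop :=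
  ∃ y : Fin d → V, (∀ i, y i ∈ B) ∧ ∃ q : ℚ, q ≠ 0 ∧ Matrix.det (Matrix.of fun i j => r (y i) j) = q * Z

/-- Borel's theorem. -/
def Borel {d : ℕ} (r : V →ₗ[ℚ] (Fin d → ℝ)) (Z : ℝ) : Prop :=
  ∃ e : Module.Basis (Fin d) ℚ V, ∃ q : ℚ, q ≠ 0 ∧
    Matrix.det (Matrix.of fun i j => r (e i) j) = q * Z

theorem identity_iff (B : Submodule ℚ V) {d : ℕ} (r : V →ₗ[ℚ] (Fin d → ℝ)) {Z : ℝ} (hZ : Z ≠ 0)
    (hB : Borel r Z) : Identity B r Z ↔ B = ⊤ := by
  obtain ⟨e, q0, hq0, he⟩ := hB
  constructor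
  · rintro ⟨y, hy, q, hq, hdet⟩
    have hli : LinearIndependent ℚ y := by
      rw [Fintype.linearIndependent_iff]
      intro c hc
      by_contra hcon
      push Not at hcon
      obtain ⟨i0, hi0⟩ := hcon
      have h1 : Matrix.det (Matrix.of fun i j => r (y i) j) = 0 := by
        rw [← Matrix.exists_vecMul_eq_zero_iff]
        refine ⟨fun i => (c i : ℝ), ?_, ?_⟩
        · intro h
          have := congrFun h i0
          simp only [Pi.zero_apply, Rat.cast_eq_zero] at this
          exact hi0 this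
        · ext j
          have h2 := congrFun (congrArg r hc) j
          rw [map_sum, Finset.sum_apply, map_zero, Pi.zero_apply] at h2
          rw [Pi.zero_apply, ← h2]
          unfold Matrix.vecMul dotProduct
          refine Finset.sum_congr rfl fun i _ => ?_
          rw [map_smul, Pi.smul_apply]
          change (c i : ℝ) * r (y i) j = c i • r (y i) j
          rw [Rat.smul_def]
      rw [h1] at hdet
      exact mul_ne_zero (Rat.cast_ne_zero.2 hq) hZ hdet.symm
    have hfin : Module.finrank ℚ V = d := by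
      rw [Module.finrank_eq_card_basis e, Fintype.card_fin]
    have hfd : FiniteDimensional ℚ V := Module.Finite.of_basis e
    have hsp : Submodule.span ℚ (Set.range y) = ⊤ :=
      hli.span_eq_top_of_card_eq_finrank' (by rw [Fintype.card_fin, hfin])
    rw [eq_top_iff, ← hsp, Submodule.span_le]
    rintro _ ⟨i, rfl⟩
    exact hy i
  · rintro rfl
    exact ⟨e, fun _ => Submodule.mem_top, q0, hq0, he⟩

end reg

section gal

variable {Γ : Type} [Group Γ] [Fintype Γ] {V : Type} [AddCommGroup V] [Module ℚ V]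

/-- The invariants of a subgroup. -/
def inv (ρ : Representation ℚ Γ V) (H : Subgroup Γ) : Submodule ℚ V where
  carrier := {v | ∀ h ∈ H, ρ h v = v}
  zero_mem' := fun _ _ => map_zero _
  add_mem' := by
    intro a b ha hb h hh
    rw [map_add, ha h hh, hb h hh]
  smul_mem' := by
    intro q a ha h hh
    rw [map_smul, ha h hh]

/-- The data for the subfields of the number field `F` which are fixed by a subgroup of the group `Γ`
of automorphisms: `V = K_{2n-1}(F)_ℚ`, `inv ρ H` is the space for the fixed field of `H`, and `B H` is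
the image of the polylogarithmic group of this field. -/
structure IsData (ρ : Representation ℚ Γ V) (B : Subgroup Γ → Submodule ℚ V) : Prop where
  le_inv : ∀ H, B H ≤ inv ρ H
  mono : ∀ H H' : Subgroup Γ, H ≤ H' → B H' ≤ B H
  stable : ∀ (g : Γ), ∀ v ∈ B ⊥, ρ g v ∈ B ⊥

/-- Zagier's conjecture for the fixed field of `H`. -/
def Zag (ρ : Representation ℚ Γ V) (B : Subgroup Γ → Submodule ℚ V) (H : Subgroup Γ) : Prop :=
  B H = inv ρ H

variable {ρ : Representation ℚ Γ V} {B : Subgroup Γ → Submodule ℚ V}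

omit [Fintype Γ] in
lemma mem_of_zag (hB : IsData ρ B) {H : Subgroup Γ} (hH : Zag ρ B H) {v : V} (hv : v ∈ inv ρ H)
    (g : Γ) : ρ g v ∈ B ⊥ := by
  apply hB.stable
  apply hB.mono ⊥ H bot_le
  rw [hH]
  exact hv

omit [Fintype Γ] in
lemma zag_bot_of (hB : IsData ρ B) (h : ∀ v : V, v ∈ B ⊥) : Zag ρ B ⊥ := by
  apply le_antisymm (hB.le_inv ⊥)
  intro v _
  exact h v

omit [Fintype Γ] in
/-- The general criterion. -/
theorem zag_of_span (hB : IsData ρ B) (S : Set (Subgroup Γ))
    (hS : Submodule.span ℚ {w | ∃ H ∈ S, ∃ g : Γ, ∃ v ∈ inv ρ H, w = ρ g v} = ⊤)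
    (hZ : ∀ H ∈ S, Zag ρ B H) : Zag ρ B ⊥ := by
  refine zag_bot_of hB fun v => ?_
  have hv : v ∈ Submodule.span ℚ {w | ∃ H ∈ S, ∃ g : Γ, ∃ v ∈ inv ρ H, w = ρ g v} := by
    rw [hS]
    exact Submodule.mem_top
  refine (Submodule.span_le.2 ?_) hv
  rintro _ ⟨H, hH, g, v, hv, rfl⟩
  exact mem_of_zag hB (hZ H hH) hv g

/-- Groups of automorphisms with a partition. -/
theorem zag_of_partition (hB : IsData ρ B) (A : Subgroup Γ) (Q : Finset (Subgroup Γ))
    (hle : ∀ C ∈ Q, C ≤ A) (hcov : ∀ a ∈ A, a ≠ 1 → (Q.filter fun C => a ∈ C).card = 1)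
    (hcard : 1 < Q.card) (hZ : ∀ C ∈ Q, Zag ρ B C) : Zag ρ B ⊥ := by
  have hmemN : ∀ (H : Subgroup Γ) (v : V),
      ∑ a ∈ Finset.univ.filter (fun a : Γ => a ∈ H), ρ a v ∈ inv ρ H := by
    intro H v h hh
    rw [map_sum]
    refine Finset.sum_bij (fun a _ => h * a) ?_ ?_ ?_ ?_
    · intro a ha
      rw [Finset.mem_filter] at ha ⊢
      exact ⟨Finset.mem_univ _, mul_mem hh ha.2⟩
    · intro a _ b _ hab
      exact mul_left_cancel hab
    · intro a ha
      rw [Finset.mem_filter] at ha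
      refine ⟨h⁻¹ * a, ?_, by group⟩
      rw [Finset.mem_filter]
      exact ⟨Finset.mem_univ _, mul_mem (inv_mem hh) ha.2⟩
    · intro a _
      rw [map_mul, Module.End.mul_apply]
  have hinv : ∀ H H' : Subgroup Γ, H ≤ H' → inv ρ H' ≤ inv ρ H :=
    fun H H' h v hv g hg => hv g (h hg)
  have hB1 : ∀ C ∈ Q, ∀ v ∈ inv ρ C, v ∈ B ⊥ := by
    intro C hC v hv
    have := mem_of_zag hB (hZ C hC) hv 1
    rwa [map_one, Module.End.one_apply] at this
  obtain ⟨C0, hC0⟩ := Finset.card_pos.1 (by omega : 0 < Q.card)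
  refine zag_bot_of hB fun v => ?_
  have key : ∑ C ∈ Q, ∑ a ∈ Finset.univ.filter (fun a : Γ => a ∈ C), ρ a v =
      ((Q.card : ℚ) - 1) • v + ∑ a ∈ Finset.univ.filter (fun a : Γ => a ∈ A), ρ a v := by
    have h1 : ∑ C ∈ Q, ∑ a ∈ Finset.univ.filter (fun a : Γ => a ∈ C), ρ a v =
        ∑ a : Γ, ((Q.filter fun C => a ∈ C).card : ℚ) • ρ a v := by
      have h2 : ∀ C ∈ Q, ∑ a ∈ Finset.univ.filter (fun a : Γ => a ∈ C), ρ a v =
          ∑ a : Γ, if a ∈ C then ρ a v else 0 := fun C _ => Finset.sum_filter _ _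
      rw [Finset.sum_congr rfl h2, Finset.sum_comm]
      refine Finset.sum_congr rfl fun a _ => ?_
      rw [← Finset.sum_filter, Finset.sum_const, ← Nat.cast_smul_eq_nsmul ℚ]
    have h3 : ∀ a : Γ, ((Q.filter fun C => a ∈ C).card : ℚ) • ρ a v =
        (if a = 1 then ((Q.card : ℚ) - 1) • v else 0) + if a ∈ A then ρ a v else 0 := by
      intro a
      by_cases ha : a = 1
      · subst ha
        rw [if_pos rfl, if_pos (one_mem A), map_one, Module.End.one_apply,
          Finset.filter_true_of_mem (fun C _ => one_mem C), sub_smul, one_smul, sub_add_cancel]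
      · rw [if_neg ha, zero_add]
        by_cases hA : a ∈ A
        · rw [if_pos hA, hcov a hA ha, Nat.cast_one, one_smul]
        · rw [if_neg hA, Finset.filter_false_of_mem (fun C hC h => hA (hle C hC h)),
            Finset.card_empty, Nat.cast_zero, zero_smul]
    rw [h1, Finset.sum_congr rfl fun a _ => h3 a, Finset.sum_add_distrib, Finset.sum_ite_eq',
      if_pos (Finset.mem_univ _), ← Finset.sum_filter]
  have h4 : ((Q.card : ℚ) - 1) • v ∈ B ⊥ := by
    have h5 : ((Q.card : ℚ) - 1) • v = ∑ C ∈ Q, ∑ a ∈ Finset.univ.filter (fun a : Γ => a ∈ C), ρ a v -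
        ∑ a ∈ Finset.univ.filter (fun a : Γ => a ∈ A), ρ a v := by
      rw [key, add_sub_cancel_right]
    rw [h5]
    refine Submodule.sub_mem _ (Submodule.sum_mem _ fun C hC => hB1 C hC _ (hmemN C v)) ?_
    exact hB1 C0 hC0 _ (hinv C0 A (hle C0 hC0) (hmemN A v))
  have h6 : (Q.card : ℚ) - 1 ≠ 0 := by
    rw [sub_ne_zero]
    intro h
    have : Q.card = 1 := by exact_mod_cast h
    omega
  have h7 := Submodule.smul_mem _ ((Q.card : ℚ) - 1)⁻¹ h4
  rwa [smul_smul, inv_mul_cancel₀ h6, one_smul] at h7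

end gal

end Pool.Agent.V2450.Zagier
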